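import Pool.Agent.H31.CRG.TR
import Pool.Agent.H65.CRG.TN
import Pool.Agent.H21.CRZ.DI

/-!
# The diagonal term, general degree (row DI of the board `crg_modules`)
-/

set_option autoImplicit false

open NumberField NumberField.InfinitePlace Complex Filter Topology MeasureTheory

namespace Pool.Agent.H78.CRG

open Pool.Agent.H28.RC Pool.Agent.H25.HK Pool.Agent.H37.CV Pool.Agent.H65.CRZ Pool.Agent.H65.CRG
open Pool.Agent.H94.CV.F1 (nm_top pf_top one_le_nS mem_DM xw_le)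
open Pool.Agent.H21.CRZ (cpw term_eq Yv Yv_pos log_Yv gg0 Wc Ys nS_pos' Ys_pos Rr Sd_eq Wc_le
  Ys_bd sum_W re1 im1 re2 im2 U_le gam1 gam2 small)

/-- the Gamma factors of the polar terms -/
theorem gam_ident (α β : ℂ) (u : ℝ) (hG1 : Gamma (1 - (1 / 2 + α + u * I)) ≠ 0)
    (hG2 : Gamma (1 - (1 / 2 + β - u * I)) ≠ 0) :
    Gq (1 / 2 + α + u * I) (1 / 2 + β - u * I) (-((α + β) / 2)) =
      Gamma (1 - (1 / 2 + α + u * I)) * Gamma (1 - (1 / 2 + β - u * I)) /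
        (Gamma (1 / 2 + α + u * I) * Gamma (1 / 2 + β - u * I)) *
      Gq (1 - (1 / 2 + β - u * I)) (1 - (1 / 2 + α + u * I)) (-((-β + -α) / 2)) := by
  unfold Gq
  have e1 : 1 - (1 / 2 + β - u * I) + -((-β + -α) / 2) = 1 / 2 + α + u * I + -((α + β) / 2) := by
    ring
  have e2 : 1 - (1 / 2 + α + u * I) + -((-β + -α) / 2) = 1 / 2 + β - u * I + -((α + β) / 2) := by
    ring
  rw [e1, e2]
  obtain ⟨G1, hG1'⟩ : ∃ G1, G1 = Gamma (1 - (1 / 2 + α + u * I)) := ⟨_, rfl⟩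
  obtain ⟨G2, hG2'⟩ : ∃ G2, G2 = Gamma (1 - (1 / 2 + β - u * I)) := ⟨_, rfl⟩
  rw [← hG1', ← hG2']
  rw [← hG1'] at hG1
  rw [← hG2'] at hG2
  field_simp

/-- the powers of the polar terms -/
theorem pow_ident {A x y g : ℝ} (hA : 0 < A) (hx : 0 < x) (hy : 0 < y) (hg : 0 < g) (α β : ℂ)
    (u : ℝ) :
    (x : ℂ) ^ (-(1 + β)) * (y : ℂ) ^ (-(1 + α)) * (g : ℂ) ^ (1 + α + β) *
        ((Yv A x y g : ℝ) : ℂ) ^ (-((α + β) / 2)) =
    (A : ℂ) ^ (2 - 2 * (1 / 2 + α + u * I + (1 / 2 + β - u * I))) *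
      ((x : ℂ) ^ (-(1 + -α)) * (y : ℂ) ^ (-(1 + -β)) * (g : ℂ) ^ (1 + -β + -α) *
          ((Yv A x y g : ℝ) : ℂ) ^ (-((-β + -α) / 2))) := by
  rw [cpw hx, cpw hy, cpw hg, cpw (Yv_pos hA hx hy hg), cpw hx, cpw hy, cpw hg,
    cpw (Yv_pos hA hx hy hg), cpw hA, log_Yv hA hx hy hg]
  rw [← Complex.exp_add, ← Complex.exp_add, ← Complex.exp_add, ← Complex.exp_add,
    ← Complex.exp_add, ← Complex.exp_add, ← Complex.exp_add]
  congr 1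
  push_cast
  ring

/-- the polar terms cancel -/
theorem cancel (n : ℕ) {A x y g : ℝ} (hA : 0 < A) (hx : 0 < x) (hy : 0 < y) (hg : 0 < g)
    (α β : ℂ) (u : ℝ) (hG1 : Gamma (1 - (1 / 2 + α + u * I)) ≠ 0)
    (hG2 : Gamma (1 - (1 / 2 + β - u * I)) ≠ 0) :
    Gq (1 / 2 + α + u * I) (1 / 2 + β - u * I) (-((α + β) / 2)) ^ n *
      ((x : ℂ) ^ (-(1 + β)) * (y : ℂ) ^ (-(1 + α)) * (g : ℂ) ^ (1 + α + β) *
        ((Yv A x y g : ℝ) : ℂ) ^ (-((α + β) / 2))) =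
    Xn n A (1 / 2 + α + u * I) (1 / 2 + β - u * I) *
      (Gq (1 - (1 / 2 + β - u * I)) (1 - (1 / 2 + α + u * I)) (-((-β + -α) / 2)) ^ n *
        ((x : ℂ) ^ (-(1 + -α)) * (y : ℂ) ^ (-(1 + -β)) * (g : ℂ) ^ (1 + -β + -α) *
          ((Yv A x y g : ℝ) : ℂ) ^ (-((-β + -α) / 2)))) := by
  rw [gam_ident α β u hG1 hG2, pow_ident hA hx hy hg α β u, mul_pow]
  unfold Xn
  ring

section

variable {K : Type} [Field K] [NumberField K]

theorem Dn_eq (m : Ideal (𝓞 K)) (A M : ℝ) (α β : ℂ) (u : ℝ) :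
    Dn m (A ^ 2) M (1 / 2 + α + u * I) (1 / 2 + β - u * I) (cu K M u) (cu K M (-u)) ⊤ ⊤ =
      ∑ S ∈ DM K M, ∑ T ∈ DM K M, Wc M α β S T *
        Sn m (1 / 2 + α + u * I) (1 / 2 + β - u * I) (Ys A S T) := by
  unfold Dn
  rw [nm_top, Complex.ofReal_one, Complex.one_cpow, Complex.one_cpow, one_mul, one_mul, pf_top]
  refine Finset.sum_congr rfl fun S _ => Finset.sum_congr rfl fun T _ => ?_
  rw [gg0]
  have e1 : A ^ 2 * nS np (S ∩ T) ^ 2 / (nS np S * nS np T * (1 * 1)) = Ys A S T := by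
    unfold Ys Yv
    rw [mul_one, mul_one]
  rw [e1]
  congr 1
  exact term_eq (nS_pos' S) (nS_pos' T) (nS_pos' _) _ _ α β u

/-- the polar terms of the term and of the dual term cancel -/
theorem Rr_cancel (n : ℕ) {A : ℝ} (hA : 0 < A) (M : ℝ) (α β : ℂ) (u : ℝ)
    (hG1 : Gamma (1 - (1 / 2 + α + u * I)) ≠ 0) (hG2 : Gamma (1 - (1 / 2 + β - u * I)) ≠ 0) :
    Gq (1 / 2 + α + u * I) (1 / 2 + β - u * I) (-((α + β) / 2)) ^ n * Rr K M A α β =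
    Xn n A (1 / 2 + α + u * I) (1 / 2 + β - u * I) *
      (Gq (1 - (1 / 2 + β - u * I)) (1 - (1 / 2 + α + u * I)) (-((-β + -α) / 2)) ^ n *
        Rr K M A (-β) (-α)) := by
  unfold Rr
  simp only [Finset.mul_sum]
  refine Finset.sum_congr rfl fun S _ => Finset.sum_congr rfl fun T _ => ?_
  have h := cancel n hA (nS_pos' S) (nS_pos' T) (nS_pos' (S ∩ T)) α β u hG1 hG2
  unfold Wc Ys
  linear_combination ((xw K M S * xw K M T : ℝ) : ℂ) * h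

/-- one side of the diagonal term -/
theorem side (hSA : Pool.Agent.H65.CRG.T_SA) (hSC : Pool.Agent.H65.CRG.T_SC) (E : ℂ → ℂ)
    (hE : IsE K E) (δ : ℝ) (hδ0 : 0 < δ) (hδ1 : δ ≤ 1 / 16) :
    ∃ C B : ℝ, 0 < C ∧ 0 ≤ B ∧ ∀ (q : ℕ) (A M κ : ℝ) (α β : ℂ) (u : ℝ), q.Prime → 0 < A →
      1 ≤ M → ‖α‖ ≤ δ → ‖β‖ ≤ δ → α + β ≠ 0 → ‖α‖ * Real.log M ≤ κ →
      ‖β‖ * Real.log M ≤ κ →
      ‖Dn (qi K q) (A ^ 2) M (1 / 2 + α + u * I) (1 / 2 + β - u * I) (cu K M u) (cu K M (-u)) ⊤ ⊤ -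
        1 / (α + β) * (E (1 + (α + β)) * Sd K M α β -
          (rho K : ℂ) * Gq (1 / 2 + α + u * I) (1 / 2 + β - u * I) (-((α + β) / 2)) ^ nrComplexPlaces K *
            cexp ((α + β) ^ 2 / 2) * Rr K M A α β)‖ ≤
      C * (1 + |u|) ^ B * Real.exp (4 * κ) * GS np (PM K M) M ^ 3 *
        ((A ^ 2 / M ^ 2) ^ (-(1 / 8) : ℝ) / ‖α + β‖ +
          (A ^ 2 * M ^ 2) ^ (2 * δ) * (q : ℝ) ^ (-(1 - 2 * δ + 2 * (2 * δ)))) := by
  obtain ⟨C₁, B₁, hC₁, hB₁, h1⟩ := hSA K E hE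
  obtain ⟨C₂, B₂, hC₂, hB₂, h2⟩ := hSC K δ (2 * δ) hδ0 (by linarith) le_rfl
  refine ⟨C₁ * 3 ^ B₁ + C₂ * 3 ^ B₂, max B₁ B₂, by positivity, le_max_of_le_left hB₁, ?_⟩
  intro q A M κ α β u hq hA hM hαδ hβδ hω hακ hβκ
  have hα : ‖α‖ ≤ 1 / 16 := hαδ.trans hδ1
  have hβ : ‖β‖ ≤ 1 / 16 := hβδ.trans hδ1
  have hq0 : (0 : ℝ) < q := by exact_mod_cast hq.pos
  obtain ⟨s₁, hs₁⟩ : ∃ s₁, s₁ = 1 / 2 + α + u * I := ⟨_, rfl⟩
  obtain ⟨s₂, hs₂⟩ : ∃ s₂, s₂ = 1 / 2 + β - u * I := ⟨_, rfl⟩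
  have hr1 : |s₁.re - 1 / 2| ≤ 1 / 16 := by
    rw [hs₁, re1, add_sub_cancel_left]
    exact (Complex.abs_re_le_norm α).trans hα
  have hr2 : |s₂.re - 1 / 2| ≤ 1 / 16 := by
    rw [hs₂, re2, add_sub_cancel_left]
    exact (Complex.abs_re_le_norm β).trans hβ
  have hr1' : |s₁.re - 1 / 2| ≤ δ := by
    rw [hs₁, re1, add_sub_cancel_left]
    exact (Complex.abs_re_le_norm α).trans hαδ
  have hr2' : |s₂.re - 1 / 2| ≤ δ := by
    rw [hs₂, re2, add_sub_cancel_left]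
    exact (Complex.abs_re_le_norm β).trans hβδ
  have hsum : s₁ + s₂ = 1 + (α + β) := by
    rw [hs₁, hs₂]
    ring
  have hω8 : ‖α + β‖ ≤ 1 / 8 := (norm_add_le _ _).trans (by linarith)
  have hU : 1 + |s₁.im| + |s₂.im| ≤ 3 * (1 + |u|) := by
    rw [hs₁, hs₂]
    exact U_le hα hβ u
  have hU0 : 0 ≤ 1 + |s₁.im| + |s₂.im| := by positivity
  have hu1 : 1 ≤ 1 + |u| := by linarith [abs_nonneg u]
  have hn : 0 < ‖α + β‖ := norm_pos_iff.2 hω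
  have hUp : ∀ B : ℝ, 0 ≤ B → B ≤ max B₁ B₂ →
      (1 + |s₁.im| + |s₂.im|) ^ B ≤ 3 ^ B * (1 + |u|) ^ max B₁ B₂ := by
    intro B hB hBm
    calc (1 + |s₁.im| + |s₂.im|) ^ B ≤ (3 * (1 + |u|)) ^ B := Real.rpow_le_rpow hU0 hU hB
      _ = 3 ^ B * (1 + |u|) ^ B := Real.mul_rpow (by norm_num) (by linarith)
      _ ≤ 3 ^ B * (1 + |u|) ^ max B₁ B₂ :=
        mul_le_mul_of_nonneg_left (Real.rpow_le_rpow_of_exponent_le hu1 hBm) (by positivity)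
  have hU1 := hUp B₁ hB₁ (le_max_left _ _)
  have hU2 := hUp B₂ hB₂ (le_max_right _ _)
  obtain ⟨W, hW⟩ : ∃ W, W = (1 + |u|) ^ max B₁ B₂ := ⟨_, rfl⟩
  have hW0 : 0 < W := by rw [hW]; positivity
  rw [← hW] at hU1 hU2 ⊢
  obtain ⟨a, ha⟩ : ∃ a, a = (A ^ 2 / M ^ 2) ^ (-(1 / 8) : ℝ) / ‖α + β‖ := ⟨_, rfl⟩
  obtain ⟨b, hb⟩ : ∃ b, b = (A ^ 2 * M ^ 2) ^ (2 * δ) * (q : ℝ) ^ (-(1 - 2 * δ + 2 * (2 * δ))) := ⟨_, rfl⟩
  have hM0 : 0 < M := by linarith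
  have ha0 : 0 ≤ a := by rw [ha]; positivity
  have hb0 : 0 ≤ b := by rw [hb]; positivity
  rw [← ha, ← hb]
  -- one pair
  have hterm : ∀ S ∈ DM K M, ∀ T ∈ DM K M,
      ‖Sn (qi K q) s₁ s₂ (Ys A S T) - 1 / (α + β) * (E (1 + (α + β)) -
        (rho K : ℂ) * Gq s₁ s₂ (-((α + β) / 2)) ^ nrComplexPlaces K * cexp ((α + β) ^ 2 / 2) *
          ((Ys A S T : ℝ) : ℂ) ^ (-((α + β) / 2)))‖ ≤
      (C₁ * 3 ^ B₁ + C₂ * 3 ^ B₂) * W * (a + b) := by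
    intro S hS T hT
    have hY := Ys_pos (K := K) hA S T
    obtain ⟨hY1, hY2⟩ := Ys_bd hA hM hS hT
    have k1 := h1 s₁ s₂ (α + β) (Ys A S T) hr1 hr2 hsum hω hω8 hY
    have k2 := h2 q s₁ s₂ (Ys A S T) hq hr1' hr2' hY
    have k3 : (Ys A S T) ^ (-(1 / 8) : ℝ) / ‖α + β‖ ≤ a := by
      rw [ha]
      exact div_le_div_of_nonneg_right
        (Real.rpow_le_rpow_of_nonpos (by positivity) hY1 (by norm_num)) hn.le
    have k4 : (Ys A S T) ^ (2 * δ) * (q : ℝ) ^ (-(1 - 2 * δ + 2 * (2 * δ))) ≤ b := by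
      rw [hb]
      exact mul_le_mul_of_nonneg_right (Real.rpow_le_rpow hY.le hY2 (by positivity))
        (by positivity)
    have k5 : C₁ * (1 + |s₁.im| + |s₂.im|) ^ B₁ * (Ys A S T) ^ (-(1 / 8) : ℝ) / ‖α + β‖ ≤
        C₁ * 3 ^ B₁ * W * a := by
      rw [mul_div_assoc]
      calc C₁ * (1 + |s₁.im| + |s₂.im|) ^ B₁ * ((Ys A S T) ^ (-(1 / 8) : ℝ) / ‖α + β‖) ≤
          C₁ * (3 ^ B₁ * W) * a :=
            mul_le_mul (mul_le_mul_of_nonneg_left hU1 hC₁.le) k3 (by positivity) (by positivity)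
        _ = C₁ * 3 ^ B₁ * W * a := by ring
    have k6 : C₂ * (1 + |s₁.im| + |s₂.im|) ^ B₂ * (Ys A S T) ^ (2 * δ) *
        (q : ℝ) ^ (-(1 - 2 * δ + 2 * (2 * δ))) ≤ C₂ * 3 ^ B₂ * W * b := by
      rw [mul_assoc (C₂ * _)]
      calc C₂ * (1 + |s₁.im| + |s₂.im|) ^ B₂ *
            ((Ys A S T) ^ (2 * δ) * (q : ℝ) ^ (-(1 - 2 * δ + 2 * (2 * δ)))) ≤
          C₂ * (3 ^ B₂ * W) * b :=
            mul_le_mul (mul_le_mul_of_nonneg_left hU2 hC₂.le) k4 (by positivity) (by positivity)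
        _ = C₂ * 3 ^ B₂ * W * b := by ring
    have e : Sn (qi K q) s₁ s₂ (Ys A S T) - 1 / (α + β) * (E (1 + (α + β)) -
        (rho K : ℂ) * Gq s₁ s₂ (-((α + β) / 2)) ^ nrComplexPlaces K * cexp ((α + β) ^ 2 / 2) *
          ((Ys A S T : ℝ) : ℂ) ^ (-((α + β) / 2))) =
        (Sn (qi K q) s₁ s₂ (Ys A S T) - Sn (K := K) ⊤ s₁ s₂ (Ys A S T)) +
        (Sn (K := K) ⊤ s₁ s₂ (Ys A S T) - 1 / (α + β) * (E (1 + (α + β)) -
        (rho K : ℂ) * Gq s₁ s₂ (-((α + β) / 2)) ^ nrComplexPlaces K * cexp ((α + β) ^ 2 / 2) *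
          ((Ys A S T : ℝ) : ℂ) ^ (-((α + β) / 2)))) := by ring
    rw [e]
    refine (norm_add_le _ _).trans ?_
    have k7 : C₁ * 3 ^ B₁ * W * a + C₂ * 3 ^ B₂ * W * b ≤
        (C₁ * 3 ^ B₁ + C₂ * 3 ^ B₂) * W * (a + b) := by
      have p1 : 0 ≤ C₁ * 3 ^ B₁ * W * b := by positivity
      have p2 : 0 ≤ C₂ * 3 ^ B₂ * W * a := by positivity
      have e2 : (C₁ * 3 ^ B₁ + C₂ * 3 ^ B₂) * W * (a + b) =
        C₁ * 3 ^ B₁ * W * a + C₂ * 3 ^ B₂ * W * b + C₁ * 3 ^ B₁ * W * b +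
          C₂ * 3 ^ B₂ * W * a := by ring
      linarith
    linarith
  -- the sum
  have e1 : Dn (qi K q) (A ^ 2) M s₁ s₂ (cu K M u) (cu K M (-u)) ⊤ ⊤ -
        1 / (α + β) * (E (1 + (α + β)) * Sd K M α β -
          (rho K : ℂ) * Gq s₁ s₂ (-((α + β) / 2)) ^ nrComplexPlaces K * cexp ((α + β) ^ 2 / 2) * Rr K M A α β) =
      ∑ S ∈ DM K M, ∑ T ∈ DM K M, Wc M α β S T *
        (Sn (qi K q) s₁ s₂ (Ys A S T) - 1 / (α + β) * (E (1 + (α + β)) -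
        (rho K : ℂ) * Gq s₁ s₂ (-((α + β) / 2)) ^ nrComplexPlaces K * cexp ((α + β) ^ 2 / 2) *
          ((Ys A S T : ℝ) : ℂ) ^ (-((α + β) / 2)))) := by
    have e2 : Dn (qi K q) (A ^ 2) M s₁ s₂ (cu K M u) (cu K M (-u)) ⊤ ⊤ =
        ∑ S ∈ DM K M, ∑ T ∈ DM K M, Wc M α β S T * Sn (qi K q) s₁ s₂ (Ys A S T) := by
      rw [hs₁, hs₂]
      exact Dn_eq _ _ _ _ _ _
    rw [e2, Sd_eq]
    unfold Rr
    have e3 : ∀ S T, Wc M α β S T * (Sn (qi K q) s₁ s₂ (Ys A S T) -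
        1 / (α + β) * (E (1 + (α + β)) -
        (rho K : ℂ) * Gq s₁ s₂ (-((α + β) / 2)) ^ nrComplexPlaces K * cexp ((α + β) ^ 2 / 2) *
          ((Ys A S T : ℝ) : ℂ) ^ (-((α + β) / 2)))) =
        Wc (K := K) M α β S T * Sn (qi K q) s₁ s₂ (Ys A S T) -
        (1 / (α + β) * E (1 + (α + β)) * Wc M α β S T -
          1 / (α + β) * ((rho K : ℂ) * Gq s₁ s₂ (-((α + β) / 2)) ^ nrComplexPlaces K * cexp ((α + β) ^ 2 / 2)) *
          (Wc M α β S T * ((Ys A S T : ℝ) : ℂ) ^ (-((α + β) / 2)))) := by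
      intro S T
      ring
    simp only [e3, Finset.sum_sub_distrib, ← Finset.mul_sum]
    ring
  rw [← hs₁, ← hs₂, e1]
  refine (norm_sum_le _ _).trans ((Finset.sum_le_sum fun S _ => norm_sum_le _ _).trans ?_)
  have hV0 : 0 ≤ (C₁ * 3 ^ B₁ + C₂ * 3 ^ B₂) * W * (a + b) := by positivity
  classical
  calc ∑ S ∈ DM K M, ∑ T ∈ DM K M, ‖Wc M α β S T *
        (Sn (qi K q) s₁ s₂ (Ys A S T) - 1 / (α + β) * (E (1 + (α + β)) -
        (rho K : ℂ) * Gq s₁ s₂ (-((α + β) / 2)) ^ nrComplexPlaces K * cexp ((α + β) ^ 2 / 2) *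
          ((Ys A S T : ℝ) : ℂ) ^ (-((α + β) / 2))))‖ ≤
      ∑ S ∈ DM K M, ∑ T ∈ DM K M, (Real.exp (4 * κ) *
        ((C₁ * 3 ^ B₁ + C₂ * 3 ^ B₂) * W * (a + b))) *
          (nS np (S ∩ T) / (nS np S * nS np T)) := by
        refine Finset.sum_le_sum fun S hS => Finset.sum_le_sum fun T hT => ?_
        rw [norm_mul]
        have k1 := Wc_le hM hακ hβκ hS hT
        have k2 := hterm S hS T hT
        have k3 := mul_le_mul k1 k2 (norm_nonneg _) ((norm_nonneg _).trans k1)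
        refine k3.trans (le_of_eq ?_)
        ring
    _ = (Real.exp (4 * κ) * ((C₁ * 3 ^ B₁ + C₂ * 3 ^ B₂) * W * (a + b))) *
        ∑ S ∈ DM K M, ∑ T ∈ DM K M, (nS np (S ∩ T) / (nS np S * nS np T)) := by
        simp only [Finset.mul_sum]
    _ ≤ (Real.exp (4 * κ) * ((C₁ * 3 ^ B₁ + C₂ * 3 ^ B₂) * W * (a + b))) *
        GS np (PM K M) M ^ 3 := by
        refine mul_le_mul_of_nonneg_left ?_ (by positivity)
        exact sum_W (K := K) hM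
    _ = _ := by ring

theorem Xn_le (n : ℕ) {CG BG : ℝ} (hCG : 0 < CG) (hBG : 0 ≤ BG)
    (hG : ∀ (α β : ℂ) (u : ℝ), ‖α‖ ≤ 1 / 16 → ‖β‖ ≤ 1 / 16 →
    ‖(Gamma (1 - (1 / 2 + α + u * I)) * Gamma (1 - (1 / 2 + β - u * I)) /
      (Gamma (1 / 2 + α + u * I) * Gamma (1 / 2 + β - u * I))) ^ n - 1‖ ≤
        CG * (‖α‖ + ‖β‖) * (1 + |u|) ^ BG) {A l : ℝ} (hA : 0 < A) {α β : ℂ} (u : ℝ)
    (hα : ‖α‖ ≤ 1 / 16) (hβ : ‖β‖ ≤ 1 / 16) (hl : 2 * ‖α + β‖ * |Real.log A| ≤ l) :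
    ‖Xn n A (1 / 2 + α + u * I) (1 / 2 + β - u * I)‖ ≤
      Real.exp l * ((1 + CG) * (1 + |u|) ^ BG) := by
  unfold Xn
  rw [norm_mul]
  have hu : 1 ≤ (1 + |u|) ^ BG := Real.one_le_rpow (by linarith [abs_nonneg u]) hBG
  refine mul_le_mul ?_ ?_ (norm_nonneg _) (Real.exp_nonneg _)
  · rw [Complex.norm_cpow_eq_rpow_re_of_pos hA, Real.rpow_def_of_pos hA]
    apply Real.exp_le_exp.2
    have e : (2 - 2 * (1 / 2 + α + u * I + (1 / 2 + β - u * I))).re = -(2 * (α + β).re) := by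
      have e2 : (2 : ℂ) - 2 * (1 / 2 + α + u * I + (1 / 2 + β - u * I)) = -(2 * (α + β)) := by
        ring
      rw [e2]
      simp
    rw [e]
    have h1 := Complex.abs_re_le_norm (α + β)
    calc Real.log A * -(2 * (α + β).re) ≤ |Real.log A * -(2 * (α + β).re)| := le_abs_self _
      _ = 2 * |(α + β).re| * |Real.log A| := by
        rw [abs_mul, abs_neg, abs_mul, abs_two]
        ring
      _ ≤ 2 * ‖α + β‖ * |Real.log A| := by gcongr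
      _ ≤ l := hl
  · have h := hG α β u hα hβ
    obtain ⟨z, hz⟩ : ∃ z, z = (Gamma (1 - (1 / 2 + α + u * I)) *
      Gamma (1 - (1 / 2 + β - u * I)) /
      (Gamma (1 / 2 + α + u * I) * Gamma (1 / 2 + β - u * I))) ^ n := ⟨_, rfl⟩
    rw [← hz] at h ⊢
    have h3 : ‖z‖ ≤ ‖z - 1‖ + 1 := by
      have h4 := norm_add_le (z - 1) 1
      rw [sub_add_cancel, norm_one] at h4
      exact h4
    have h5 : CG * (‖α‖ + ‖β‖) * (1 + |u|) ^ BG ≤ CG * 1 * (1 + |u|) ^ BG := by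
      gcongr
      linarith
    have h6 : (1 + CG) * (1 + |u|) ^ BG = (1 + |u|) ^ BG + CG * 1 * (1 + |u|) ^ BG := by ring
    linarith

theorem ident (n : ℕ) {A : ℝ} (hA : 0 < A) (M : ℝ) {α β : ℂ} (u : ℝ) (E : ℂ → ℂ) (D D' X : ℂ)
    (hX : X = Xn n A (1 / 2 + α + u * I) (1 / 2 + β - u * I)) (hα : ‖α‖ ≤ 1 / 16)
    (hβ : ‖β‖ ≤ 1 / 16) :
    D + X * D' - (1 / (α + β) * E (1 + (α + β)) * Sd K M α β -
      X * (1 / (α + β) * E (1 - (α + β)) * Sd K M (-β) (-α))) =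
    (D - 1 / (α + β) * (E (1 + (α + β)) * Sd K M α β -
      (rho K : ℂ) * Gq (1 / 2 + α + u * I) (1 / 2 + β - u * I) (-((α + β) / 2)) ^ n *
        cexp ((α + β) ^ 2 / 2) * Rr K M A α β)) +
    X * (D' - 1 / (-β + -α) * (E (1 + (-β + -α)) * Sd K M (-β) (-α) -
      (rho K : ℂ) * Gq (1 / 2 + -β + u * I) (1 / 2 + -α - u * I) (-((-β + -α) / 2)) ^ n *
        cexp ((-β + -α) ^ 2 / 2) * Rr K M A (-β) (-α))) := by
  have h := Rr_cancel (K := K) n hA M α β u (gam1 hα u) (gam2 hβ u)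
  have e1 : (1 : ℂ) / 2 + -β + u * I = 1 - (1 / 2 + β - u * I) := by ring
  have e2 : (1 : ℂ) / 2 + -α - u * I = 1 - (1 / 2 + α + u * I) := by ring
  have e3 : (1 : ℂ) + (-β + -α) = 1 - (α + β) := by ring
  have e4 : (-β + -α) ^ 2 = (α + β) ^ 2 := by ring
  have e5 : 1 / (-β + -α) = -(1 / (α + β)) := by
    rw [show -β + -α = -(α + β) by ring, one_div_neg_eq_neg_one_div]
  rw [← hX] at h
  rw [e1, e2, e3, e4, e5]
  linear_combination -(1 / (α + β) * (rho K : ℂ) * cexp ((α + β) ^ 2 / 2)) * h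

end

/-- the sizes of the parameters -/
theorem sizes {cK x ε₁ δ : ℝ} {n : ℕ} (hcK : 0 < cK) (hx : 1 ≤ x) (hε : 0 < ε₁)
    (hε' : ε₁ < 1 / 2) (hn : 1 ≤ n) (hδ : δ = 1 / (8 * (2 * (n : ℝ) + 2))) :
    ((cK * x ^ n) ^ 2 / (x ^ (1 - 2 * ε₁)) ^ 2) ^ (-(1 / 8) : ℝ) ≤ cK ^ (-(1 / 4) : ℝ) *
      x ^ (-(ε₁ / 2)) ∧
    ((cK * x ^ n) ^ 2 * (x ^ (1 - 2 * ε₁)) ^ 2) ^ (2 * δ) *
      x ^ (-(1 - 2 * δ + 2 * (2 * δ))) ≤ cK ^ (4 * δ) * x ^ (-(ε₁ / 2)) := by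
  have hx0 : 0 < x := by linarith
  have hn1 : (1 : ℝ) ≤ n := by exact_mod_cast hn
  have hδ0 : 0 < δ := by rw [hδ]; positivity
  have hδ1 : 2 * δ * (2 * n + 2) = 1 / 4 := by
    rw [hδ]
    field_simp
    norm_num
  constructor
  · have e1 : (cK * x ^ n) ^ 2 / (x ^ (1 - 2 * ε₁)) ^ 2 = cK ^ 2 * x ^ (2 * n - 2 + 4 * ε₁) := by
      rw [← Real.rpow_natCast (x ^ (1 - 2 * ε₁)), ← Real.rpow_mul hx0.le, mul_pow, ← pow_mul,
        ← Real.rpow_natCast x, mul_div_assoc, ← Real.rpow_sub hx0]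
      congr 2
      push_cast
      ring
    rw [e1, Real.mul_rpow (by positivity) (by positivity), ← Real.rpow_natCast,
      ← Real.rpow_mul hcK.le, ← Real.rpow_mul hx0.le]
    have e2 : ((2 : ℕ) : ℝ) * -(1 / 8) = -(1 / 4) := by norm_num
    rw [e2]
    refine mul_le_mul_of_nonneg_left ?_ (by positivity)
    apply Real.rpow_le_rpow_of_exponent_le hx
    linarith
  · have e1 : (cK * x ^ n) ^ 2 * (x ^ (1 - 2 * ε₁)) ^ 2 = cK ^ 2 * x ^ (2 * n + 2 - 4 * ε₁) := by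
      rw [← Real.rpow_natCast (x ^ (1 - 2 * ε₁)), ← Real.rpow_mul hx0.le, mul_pow, ← pow_mul,
        ← Real.rpow_natCast x, mul_assoc, ← Real.rpow_add hx0]
      congr 2
      push_cast
      ring
    rw [e1, Real.mul_rpow (by positivity) (by positivity), ← Real.rpow_natCast,
      ← Real.rpow_mul hcK.le, ← Real.rpow_mul hx0.le, mul_assoc, ← Real.rpow_add hx0]
    have e2 : ((2 : ℕ) : ℝ) * (2 * δ) = 4 * δ := by push_cast; ring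
    rw [e2]
    refine mul_le_mul_of_nonneg_left ?_ (by positivity)
    apply Real.rpow_le_rpow_of_exponent_le hx
    nlinarith

theorem pf_DI (h1 : Pool.Agent.H65.CRZ.T_G1) (h2 : Pool.Agent.H65.CRG.T_G3)
    (h3 : Pool.Agent.H65.CRG.T_SB) (h4 : Pool.Agent.H65.CRG.T_SA) (h5 : Pool.Agent.H65.CRG.T_SC)
    (h6 : Pool.Agent.H65.CRG.T_CQ) : Pool.Agent.H65.CRG.T_DI := by
  intro K _ _ _ E ε₁ c C₀ hE hε hε' hc hC₀
  obtain ⟨hn1, -, cK, hcK, hcA⟩ := h6 K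
  set n : ℕ := nrComplexPlaces K with hn
  have hnR : (1 : ℝ) ≤ n := by exact_mod_cast hn1
  obtain ⟨δ, hδ⟩ : ∃ δ : ℝ, δ = 1 / (8 * (2 * (n : ℝ) + 2)) := ⟨_, rfl⟩
  have hδ0 : 0 < δ := by rw [hδ]; positivity
  have hδ1 : δ ≤ 1 / 16 := by
    rw [hδ, div_le_div_iff₀ (by positivity) (by norm_num)]
    linarith
  obtain ⟨CS, BS, hCS, hBS, hside⟩ := side h4 h5 E hE δ hδ0 hδ1
  obtain ⟨CG, BG, hCG, hBG, hG⟩ := h2 n
  obtain ⟨CU, -, hGU, -⟩ := a_GU K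
  refine ⟨BS + BG, add_nonneg hBS hBG, fun η hη => ?_⟩
  obtain ⟨X₀, hX₀⟩ : ∃ X₀, X₀ = Real.exp (4 * C₀ * (n + |Real.log cK| / Real.log 2)) :=
    ⟨_, rfl⟩
  have hX0 : 1 ≤ X₀ := by
    rw [hX₀]
    apply Real.one_le_exp
    have := Real.log_pos (show (1 : ℝ) < 2 by norm_num)
    positivity
  obtain ⟨Z, hZ⟩ : ∃ Z, Z = (1 + X₀ * (1 + CG)) * (CS * Real.exp (4 * C₀) *
      |CU| ^ 3 * (cK ^ (-(1 / 4) : ℝ) / c + cK ^ (4 * δ))) := ⟨_, rfl⟩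
  have hZ0 : 0 ≤ Z := by
    rw [hZ]
    positivity
  obtain ⟨q₁, hq₁⟩ := small hε hη hZ0
  obtain ⟨q₂, hq₂⟩ : ∃ q₂ : ℕ, ∀ q : ℕ, q₂ ≤ q → C₀ / δ ≤ Real.log q := by
    have h : Tendsto (fun q : ℕ => Real.log q) atTop atTop :=
      Real.tendsto_log_atTop.comp tendsto_natCast_atTop_atTop
    obtain ⟨q₂, hq₂⟩ := eventually_atTop.1 (h.eventually (eventually_ge_atTop (C₀ / δ)))
    exact ⟨q₂, hq₂⟩
  refine ⟨max q₁ q₂, fun q hq hqq α β u hα hβ hω => ?_⟩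
  have hqa := hq₁ q ((le_max_left _ _).trans hqq)
  have hqb := hq₂ q ((le_max_right _ _).trans hqq)
  have hq2 : (2 : ℝ) ≤ q := by exact_mod_cast hq.two_le
  have hq0 : (0 : ℝ) < q := by linarith
  have hq1 : (1 : ℝ) ≤ q := by linarith
  have hlog2 : 0 < Real.log 2 := Real.log_pos (by norm_num)
  have hlog : Real.log 2 ≤ Real.log q := Real.log_le_log (by norm_num) hq2
  have hl0 : 0 < Real.log q := by linarith
  have hCδ : C₀ / Real.log q ≤ δ := by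
    rw [div_le_iff₀ hl0]
    rw [div_le_iff₀ hδ0] at hqb
    linarith
  have hαδ := hα.trans hCδ
  have hβδ := hβ.trans hCδ
  have hα16 := hαδ.trans hδ1
  have hβ16 := hβδ.trans hδ1
  have hω0 : 0 < ‖α + β‖ := lt_of_lt_of_le (by positivity) hω
  have hωne : α + β ≠ 0 := norm_pos_iff.1 hω0
  have hM1 : 1 ≤ Mq ε₁ q := Real.one_le_rpow hq1 (by linarith)
  have hlM : Real.log (Mq ε₁ q) ≤ Real.log q := by
    unfold Mq
    rw [Real.log_rpow hq0]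
    nlinarith
  have hlM0 : 0 ≤ Real.log (Mq ε₁ q) := Real.log_nonneg hM1
  have hακ : ‖α‖ * Real.log (Mq ε₁ q) ≤ C₀ := by
    calc ‖α‖ * Real.log (Mq ε₁ q) ≤ C₀ / Real.log q * Real.log q :=
        mul_le_mul hα hlM hlM0 (by positivity)
      _ = C₀ := div_mul_cancel₀ _ hl0.ne'
  have hβκ : ‖β‖ * Real.log (Mq ε₁ q) ≤ C₀ := by
    calc ‖β‖ * Real.log (Mq ε₁ q) ≤ C₀ / Real.log q * Real.log q :=
        mul_le_mul hβ hlM hlM0 (by positivity)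
      _ = C₀ := div_mul_cancel₀ _ hl0.ne'
  obtain ⟨hA, -⟩ := hcA q hq
  have hA0 : 0 < cB K (qi K q) := by rw [hA]; positivity
  -- the two sides
  have k1 := hside q (cB K (qi K q)) (Mq ε₁ q) C₀ α β u hq hA0 hM1 hαδ hβδ hωne hακ hβκ
  have hne' : -β + -α ≠ 0 := by
    intro h
    apply hωne
    linear_combination -h
  have hnn : ‖-β + -α‖ = ‖α + β‖ := by
    rw [show -β + -α = -(α + β) by ring, norm_neg]
  have k2 := hside q (cB K (qi K q)) (Mq ε₁ q) C₀ (-β) (-α) u hq hA0 hM1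
    (by rw [norm_neg]; exact hβδ) (by rw [norm_neg]; exact hαδ) hne'
    (by rw [norm_neg]; exact hβκ) (by rw [norm_neg]; exact hακ)
  rw [hnn] at k2
  -- the factor
  have hXl : 2 * ‖α + β‖ * |Real.log (cB K (qi K q))| ≤
      4 * C₀ * (n + |Real.log cK| / Real.log 2) := by
    have e1 : |Real.log (cB K (qi K q))| ≤ |Real.log cK| + n * Real.log q := by
      rw [hA, Real.log_mul hcK.ne' (by positivity), Real.log_pow]
      exact (abs_add_le _ _).trans (by rw [abs_of_nonneg (by positivity : 0 ≤ (n : ℝ) * Real.log q)])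
    have e2 : ‖α + β‖ ≤ 2 * (C₀ / Real.log q) := (norm_add_le _ _).trans (by linarith)
    calc 2 * ‖α + β‖ * |Real.log (cB K (qi K q))| ≤
        2 * (2 * (C₀ / Real.log q)) * (|Real.log cK| + n * Real.log q) := by gcongr
      _ = 4 * C₀ * (n + |Real.log cK| / Real.log q) := by
        field_simp
        ring
      _ ≤ 4 * C₀ * (n + |Real.log cK| / Real.log 2) := by gcongr
  have k3 := Xn_le n hCG hBG hG hA0 u hα16 hβ16 hXl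
  rw [← hX₀] at k3
  -- the error
  obtain ⟨V, hV⟩ : ∃ V, V = CS * (1 + |u|) ^ BS * Real.exp (4 * C₀) *
      GS np (PM K (Mq ε₁ q)) (Mq ε₁ q) ^ 3 *
      ((cB K (qi K q) ^ 2 / Mq ε₁ q ^ 2) ^ (-(1 / 8) : ℝ) / ‖α + β‖ +
        (cB K (qi K q) ^ 2 * Mq ε₁ q ^ 2) ^ (2 * δ) *
          (q : ℝ) ^ (-(1 - 2 * δ + 2 * (2 * δ)))) := ⟨_, rfl⟩
  rw [← hV] at k1 k2
  have hGS0 : 0 ≤ GS np (PM K (Mq ε₁ q)) (Mq ε₁ q) := by
    unfold GS
    refine Finset.sum_nonneg fun S _ => inv_nonneg.2 ?_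
    unfold fS
    exact Finset.prod_nonneg fun P _ => by
      have := Pool.Agent.H94.CV.F1.two_le_np P
      linarith
  have hV1 : V ≤ CS * (1 + |u|) ^ BS * Real.exp (4 * C₀) * (|CU| * (1 + Real.log q)) ^ 3 *
      ((cK ^ (-(1 / 4) : ℝ) / c + cK ^ (4 * δ)) * ((1 + Real.log q) *
        (q : ℝ) ^ (-(ε₁ / 2)))) := by
    rw [hV]
    have g1 : GS np (PM K (Mq ε₁ q)) (Mq ε₁ q) ≤ |CU| * (1 + Real.log q) := by
      refine (hGU _ hM1).trans ?_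
      have h : CU * (1 + Real.log (Mq ε₁ q)) ≤ |CU| * (1 + Real.log (Mq ε₁ q)) :=
        mul_le_mul_of_nonneg_right (le_abs_self _) (by linarith)
      refine h.trans (mul_le_mul_of_nonneg_left (by linarith) (abs_nonneg _))
    obtain ⟨s1, s2⟩ := sizes (ε₁ := ε₁) hcK hq1 hε hε' hn1 hδ
    have g2 : (cB K (qi K q) ^ 2 / Mq ε₁ q ^ 2) ^ (-(1 / 8) : ℝ) / ‖α + β‖ +
        (cB K (qi K q) ^ 2 * Mq ε₁ q ^ 2) ^ (2 * δ) *
          (q : ℝ) ^ (-(1 - 2 * δ + 2 * (2 * δ))) ≤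
        (cK ^ (-(1 / 4) : ℝ) / c + cK ^ (4 * δ)) * ((1 + Real.log q) *
        (q : ℝ) ^ (-(ε₁ / 2))) := by
      rw [hA]
      unfold Mq
      have t0 : ((cK * (q : ℝ) ^ n) ^ 2 / ((q : ℝ) ^ (1 - 2 * ε₁)) ^ 2) ^ (-(1 / 8) : ℝ) /
          ‖α + β‖ ≤ cK ^ (-(1 / 4) : ℝ) * (q : ℝ) ^ (-(ε₁ / 2)) / ‖α + β‖ :=
        div_le_div_of_nonneg_right s1 hω0.le
      have t1 : cK ^ (-(1 / 4) : ℝ) * (q : ℝ) ^ (-(ε₁ / 2)) / ‖α + β‖ ≤
          cK ^ (-(1 / 4) : ℝ) / c * ((1 + Real.log q) * (q : ℝ) ^ (-(ε₁ / 2))) := by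
        rw [div_le_iff₀ hω0]
        have t2 : 1 ≤ (1 + Real.log q) / c * ‖α + β‖ := by
          calc (1 : ℝ) = Real.log q / c * (c / Real.log q) := by
                field_simp
            _ ≤ (1 + Real.log q) / c * ‖α + β‖ := by
                gcongr
                linarith
        calc cK ^ (-(1 / 4) : ℝ) * (q : ℝ) ^ (-(ε₁ / 2)) =
            cK ^ (-(1 / 4) : ℝ) * (q : ℝ) ^ (-(ε₁ / 2)) * 1 := (mul_one _).symm
          _ ≤ cK ^ (-(1 / 4) : ℝ) * (q : ℝ) ^ (-(ε₁ / 2)) *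
              ((1 + Real.log q) / c * ‖α + β‖) := by gcongr
          _ = _ := by ring
      have t3 : cK ^ (4 * δ) * (q : ℝ) ^ (-(ε₁ / 2)) ≤
          cK ^ (4 * δ) * ((1 + Real.log q) * (q : ℝ) ^ (-(ε₁ / 2))) := by
        refine mul_le_mul_of_nonneg_left ?_ (by positivity)
        exact le_mul_of_one_le_left (by positivity) (by linarith)
      have e : (cK ^ (-(1 / 4) : ℝ) / c + cK ^ (4 * δ)) * ((1 + Real.log q) *
          (q : ℝ) ^ (-(ε₁ / 2))) = cK ^ (-(1 / 4) : ℝ) / c * ((1 + Real.log q) *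
          (q : ℝ) ^ (-(ε₁ / 2))) + cK ^ (4 * δ) * ((1 + Real.log q) *
          (q : ℝ) ^ (-(ε₁ / 2))) := by ring
      rw [e]
      exact add_le_add (t0.trans t1) (s2.trans t3)
    have hg2 : 0 ≤ (cB K (qi K q) ^ 2 / Mq ε₁ q ^ 2) ^ (-(1 / 8) : ℝ) / ‖α + β‖ +
        (cB K (qi K q) ^ 2 * Mq ε₁ q ^ 2) ^ (2 * δ) *
          (q : ℝ) ^ (-(1 - 2 * δ + 2 * (2 * δ))) := by
      have : 0 < Mq ε₁ q := by linarith
      positivity
    gcongr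
  have hu0 : 0 < (1 + |u|) ^ BS := by positivity
  have hug : 1 ≤ (1 + |u|) ^ BG := Real.one_le_rpow (by linarith [abs_nonneg u]) hBG
  have hV0 : 0 ≤ V := (norm_nonneg _).trans k1
  -- the end
  have e1 : (1 : ℂ) - (1 / 2 + β - u * I) = 1 / 2 + -β + u * I := by ring
  have e2 : (1 : ℂ) - (1 / 2 + α + u * I) = 1 / 2 + -α - u * I := by ring
  rw [e1, e2]
  rw [ident (K := K) n hA0 (Mq ε₁ q) u E _ _ _ rfl hα16 hβ16]
  refine (norm_add_le _ _).trans ?_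
  rw [norm_mul]
  calc _ ≤ V + X₀ * ((1 + CG) * (1 + |u|) ^ BG) * V :=
        add_le_add k1 (mul_le_mul k3 k2 (norm_nonneg _) (by positivity))
    _ ≤ (1 + |u|) ^ BG * ((1 + X₀ * (1 + CG)) * V) := by
        have : V ≤ (1 + |u|) ^ BG * V := le_mul_of_one_le_left hV0 hug
        have e : (1 + |u|) ^ BG * ((1 + X₀ * (1 + CG)) * V) = (1 + |u|) ^ BG * V +
          X₀ * ((1 + CG) * (1 + |u|) ^ BG) * V := by ring
        linarith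
    _ ≤ (1 + |u|) ^ BG * ((1 + X₀ * (1 + CG)) * (CS * (1 + |u|) ^ BS * Real.exp (4 * C₀) *
          (|CU| * (1 + Real.log q)) ^ 3 * ((cK ^ (-(1 / 4) : ℝ) / c + cK ^ (4 * δ)) *
            ((1 + Real.log q) * (q : ℝ) ^ (-(ε₁ / 2)))))) := by
        gcongr
    _ = Z * ((1 + Real.log q) ^ 4 * (q : ℝ) ^ (-(ε₁ / 2))) * (1 + |u|) ^ (BS + BG) := by
        rw [hZ, Real.rpow_add (by positivity)]
        ring
    _ ≤ η * (1 + |u|) ^ (BS + BG) := by gcongr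

end Pool.Agent.H78.CRG
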